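import Pool.Agent.helper37.NF.Spec

/-!
# Project N3 (MP_7e34bc_co, Q2): `N(n,k) = M(n,k)` for all `n ≥ 3 k`, except `N(12,4) = 261` (NF of helper37 has `n ≥ 4 k`)

All statements were checked with exact arithmetic. `n = a + b`, `t = i + j`. Range of the new inequalities: `3 t ≤ n < 4 t` (from `4 t ≤ n` on: CH4 of helper37).

RULES. Row `t3:XX`: file `Pool/Agent/<seat>/N3/XX.lean`, `import Pool.Agent.helper77.N3.Spec` (and `import Pool.Agent.helper55.NK.Base` where `Base` is mentioned), `set_option autoImplicit false`,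
`namespace Pool.Agent.helper77.N3`, `open Finset Pool.Agent.NK Pool.Agent.helper37.NF`, theorem line as in the note (the other rows are hypotheses, so all rows are independent); auxiliary lemmas with
prefix `XX_` (or private). Mathlib only, no straight double quotes, no convert / congr!, no native_decide (`decide +kernel` is fine). A FALSE or awkward statement: one line to helper77 at once.
-/

set_option autoImplicit false

namespace Pool.Agent.helper77.N3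

open Finset Pool.Agent.NK Pool.Agent.helper37.NF

/-- `C(3i, i)` -/
def dd (i : ℕ) : ℕ := (3 * i).choose i

/-- the ratio `dd (i+1) / dd i` -/
noncomputable def rh (x : ℝ) : ℝ := 3 * (3 * x + 1) * (3 * x + 2) / ((2 * x + 1) * (2 * x + 2))

/-- **BS** (short, from UNI of helper55/NK/Spec). `i (3 (i+j) + 1) / (i+j) = 3 i` as `i < i + j`. -/
def BS_stmt : Prop := ∀ a b i j : ℕ, 1 ≤ i → 1 ≤ j → a + b = 3 * (i + j) → a.choose i * b.choose j ≤ dd i * dd j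

/-- **RC** (short). `dd i * i! * (2i)! = (3i)!` (`Nat.choose_mul_factorial_mul_factorial`), the same for `i + 1`, `Nat.factorial_succ`; `(3i+3)/(i+1) = 3`. -/
def RC_stmt : Prop := ∀ i : ℕ, (dd (i + 1) : ℝ) = rh i * dd i

/-- **LX** (short-medium, from RC). `rh` is monotone on the nonnegative reals: `(3x+1)/(2x+1)` and `(3x+2)/(2x+2)` are. Wlog `i ≤ j`; induction on `i`: for `4 ≤ i ≤ j`,
`dd i dd j = rh (i-1) dd (i-1) dd j ≤ rh j dd (i-1) dd j = dd (i-1) dd (j+1)`. `dd 3 = 84`. -/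
def LX_stmt : Prop := ∀ i j : ℕ, 3 ≤ i → 3 ≤ j → dd i * dd j ≤ 84 * dd (i + j - 3)

/-- **GR** (short, from RC). `dd (s+3) = rh (s+2) rh (s+1) rh s dd s` and `rh` is monotone: `rh 6 * rh 7 * rh 8 = 252.47.. ≥ 252`. -/
def GR_stmt : Prop := ∀ s : ℕ, 6 ≤ s → 252 * dd s ≤ dd (s + 3)

/-- **B3** (short, from AVG of helper37/NF/Spec, BS, LX, GR). AVG with `N = 3 (i + j)`, `κ = 1/3`: for `a + b = N` by BS and LX `3 C(a,i) C(b,j) ≤ 252 dd (i+j-3) ≤ dd (i+j) = C(N, i+j)`. -/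
def B3_stmt : Prop := ∀ a b i j : ℕ, 3 ≤ i → 3 ≤ j → 9 ≤ i + j → 3 * (i + j) ≤ a + b → 3 * (a.choose i * b.choose j) ≤ (a + b).choose (i + j)

/-- **PA** (short). Put `t = 12 + z`, `n = 3 t + y` with `y, z ≥ 0`: in all four differences (right side minus left side) of the first three inequalities all coefficients are nonnegative, so after `ring_nf` it is `positivity`
(`obtain ⟨z, rfl⟩ : ∃ z, t = 12 + z`, the same for `y`, `rw [← sub_nonneg]`, show that the difference equals its expansion by `ring`, or `nlinarith`/`positivity` after `ring_nf`).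
The last one (here `n ≤ 4 t` is used): `9 t (n - 2t) - n^2 = (n - 3t)(6t - n) ≥ 0` and `n (n-t)(n-3) - (n-1)(n-2)(n-t-2) = 2 n (n - 3) - 2 (n - t - 2) ≥ 0`; multiply. -/
def PA_stmt : Prop := ∀ t n : ℝ, 12 ≤ t → 3 * t ≤ n → n ≤ 4 * t →
  5 * (t - 1) * (n - t - 1) * (n - t - 2) ^ 2 * (n - t - 3) ≤ (n - 2 * t) * (n - 3) ^ 2 * (n - 4) * (n - 5) ∧
  7 * (t - 1) * (n - t - 1) * (n - t - 2) ^ 2 * (n - t - 3) * (n - t - 4) ≤ (n - 2 * t) * (n - 3) ^ 2 * (n - 4) * (n - 5) * (n - 6) ∧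
  28 * (t - 1) * (n - t - 1) * (n - t - 2) ^ 2 * (n - t - 3) * (n - t - 4) * (n - t - 5) ≤
    3 * (n - 2 * t) * (n - 3) ^ 2 * (n - 4) * (n - 5) * (n - 6) * (n - 7) ∧
  n * (n - 1) * (n - 2) * (n - t - 2) ≤ 9 * t * (n - t) * (n - 2 * t) * (n - 3)

/-- **ID** (short-medium). Here `n = m + 8`, `t = u + 2`. Repeated use of `(m+1).choose (u+1) * (u+1) = (m+1) * m.choose u` (`Nat.succ_mul_choose_eq`) and
`m.choose u * (m+1) = (m+1).choose u * (m+1-u)` (`Nat.choose_mul_succ_eq`); cast to the reals (`u ≤ m`). First: `C(m+8,u+2) → C(m+7,u+1) → C(m+6,u) → C(m+5,u) → .. → C(m,u)`. -/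
def ID_stmt : Prop := ∀ m u : ℕ, u ≤ m →
  ((m + 2).choose u : ℝ) * ((m + 8) * (m + 7) * (m + 6) * (m + 5) * (m + 4) * (m + 3)) =
    ((m + 8).choose (u + 2) : ℝ) * ((u + 2) * (u + 1) * (m - u + 6) * (m - u + 5) * (m - u + 4) * (m - u + 3)) ∧
  ((m + 1).choose u : ℝ) * ((m + 8) * (m + 7) * (m + 6) * (m + 5) * (m + 4) * (m + 3) * (m + 2)) =
    ((m + 8).choose (u + 2) : ℝ) * ((u + 2) * (u + 1) * (m - u + 6) * (m - u + 5) * (m - u + 4) * (m - u + 3) * (m - u + 2)) ∧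
  (m.choose u : ℝ) * ((m + 8) * (m + 7) * (m + 6) * (m + 5) * (m + 4) * (m + 3) * (m + 2) * (m + 1)) =
    ((m + 8).choose (u + 2) : ℝ) *
      ((u + 2) * (u + 1) * (m - u + 6) * (m - u + 5) * (m - u + 4) * (m - u + 3) * (m - u + 2) * (m - u + 1)) ∧
  ((m + 5).choose (u + 1) : ℝ) * ((m + 8) * (m + 7) * (m + 6)) =
    ((m + 8).choose (u + 2) : ℝ) * ((u + 2) * (m - u + 6) * (m - u + 5))

/-- **TA** (medium, from UNI of helper55/NK/Spec, PA, ID). `n = a + b`, `t = j + 2`, `3 t ≤ n < 4 t`. By UNI we may take `a = 2 (n+1)/t`, which is 6, 7 or 8 (`6 t ≤ 2 (n+1) ≤ 8 t`), `b = n - a`, so `C(b,j) = C(n-6,t-2)`,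
`C(n-7,t-2)` or `C(n-8,t-2)`, with the factors `C(6,2) = 15`, `C(7,2) = 21`, `C(8,2) = 28`. Multiply by `n (n-1) (n-2) .. > 0` and use ID (`m = n - 8`, `u = t - 2 = j`): after division by `t (n-t) C(n,t)` it is the first, second or third
inequality of PA. (Case 6: `15 (t-1)(n-t-1)(n-t-2)(n-t-3) (n-t-2) ≤ 3 (n-2t)(n-3) (n-3)(n-4)(n-5)`.) -/
def TA_stmt : Prop := ∀ a b j : ℕ, 10 ≤ j → 3 * (j + 2) ≤ a + b → a + b < 4 * (j + 2) → ∀ n t : ℝ, n = ((a + b : ℕ) : ℝ) → t = ((j + 2 : ℕ) : ℝ) →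
  ((a.choose 2 * b.choose j : ℕ) : ℝ) * (n * (n - 1) * (n - 2) * (n - t - 2)) ≤
    3 * t * (n - t) * (n - 2 * t) * (n - 3) * ((a + b).choose (j + 2) : ℝ)

/-- **TB** (short-medium). `q = (N+1)/(T-2) ≤ 4` as `N + 1 ≤ 4 T < 5 (T - 2)`. `MV N (T-2) = q C(N-q,T-3)`; `C(N-q,T-1) (T-1)(T-2) = C(N-q,T-3) (N-q-T+3)(N-q-T+2)` (`Nat.choose_succ_right_eq` twice) and
`N - q - T + 3 ≥ N - T - 1`, `N - q - T + 2 ≥ N - T - 2`; `q C(N-q,T-1) ≤ MV N T` by `Pool.Agent.NK.Base.block_le` (Pool/Agent/helper55/NK/Base.lean). -/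
def TB_stmt : Prop := ∀ N T : ℕ, 12 ≤ T → 3 * T ≤ N → N < 4 * T →
  MV N (T - 2) * ((N - T - 1) * (N - T - 2)) ≤ MV N T * ((T - 1) * (T - 2))

/-- **MM** (short-medium, from ID, TB). `3 C(n-3,t-1) ≤ MV n t` (`Base.block_le` with `m = 3`), so by the last identity of ID `3 t (n-t)(n-t-1) C(n,t) ≤ n (n-1)(n-2) MV n t` (A). By TB
`(n-t-1)(n-t-2) MV n (t-2) ≤ (t-1)(t-2) MV n t` (B). Since `(n-t-1)(n-t-2) - (t-1)(t-2) = (n-2t)(n-3)`: the claim times `n-t-1 > 0` is `(n-2t)(n-3)` times (A) plus `n (n-1) (n-2)` times (B). -/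
def MM_stmt : Prop := ∀ N T : ℕ, 12 ≤ T → 3 * T ≤ N → N < 4 * T → ∀ n t : ℝ, n = (N : ℝ) → t = (T : ℝ) →
  3 * t * (n - t) * (n - 2 * t) * (n - 3) * (N.choose T : ℝ) + n * (n - 1) * (n - 2) * (n - t - 2) * (MV N (T - 2) : ℝ) ≤
    n * (n - 1) * (n - 2) * (n - t - 2) * (MV N T : ℝ)

/-- **BI** (short, from B3, PA, TA, MM). Multiply by `n (n-1)(n-2)(n-t-2) > 0`. By MM it is enough that `C(a,i) C(b,j) n (n-1)(n-2)(n-t-2) ≤ 3 t (n-t)(n-2t)(n-3) C(n,t)`: `i = 2`: TA; `j = 2`: TA with `a, b` exchanged (`a + b = b + a`);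
`i, j ≥ 3`: B3 and the last inequality of PA. -/
def BI_stmt : Prop := ∀ a b i j : ℕ, 2 ≤ i → 2 ≤ j → 12 ≤ i + j → 3 * (i + j) ≤ a + b → a + b < 4 * (i + j) →
  a.choose i * b.choose j + MV (a + b) (i + j - 2) ≤ MV (a + b) (i + j)

/-- **SM** (short, finite check, from UNI of helper55/NK/Spec). By UNI it is enough to take `a = i (n+1)/t`, `b = n - a`, `n = a + b`, `t = i + j`; then `t ≤ 11`, `n < 44`: 311 cases, all checked with Python. Same proof as row SMA of helper37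
(see Pool/Agent/*/NF/SMA*.lean): `decide +kernel` with a fast binomial, or `interval_cases` and `decide +kernel`. -/
def SM_stmt : Prop := ∀ a b i j : ℕ, 2 ≤ i → 2 ≤ j → i + j ≤ 11 → 3 * (i + j) ≤ a + b → a + b < 4 * (i + j) → ¬ (a + b = 12 ∧ i + j = 4) →
  a.choose i * b.choose j + MV (a + b) (i + j - 2) ≤ MV (a + b) (i + j)

/-- **MO** (short). It is enough to show `MV n s ≤ MV n (s+1)` for `2 ≤ s`, `3 (s+1) ≤ n`: `q = (n+1)/s`, `q C(n-q,s-1) ≤ q C(n-q,s) ≤ MV n (s+1)` (`Base.block_le`), because `2 s ≤ n - q + 1`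
(`q s ≤ n + 1`, so `s (n + 1 - q) ≥ (s - 1)(n + 1) ≥ (s-1)(3s+4) ≥ 2 s^2`) and `Nat.choose_le_succ_of_lt_half_left` or `Nat.choose_succ_right_eq`. -/
def MO_stmt : Prop := ∀ n s t : ℕ, 2 ≤ s → s ≤ t → 3 * t ≤ n → MV n s ≤ MV n t

/-- **CH** (short-medium, from BI, SM, MO, CH4 of helper37/NF/Spec). Copy Pool/Agent/helper77/NF/CH4.lean with `3 k`, `4 k` instead of `4 k`, `10 k` (CH4 in place of CHA). The exception: if `n = 12` and `t = 4`, then `k = 4` as `4 ≤ k`, `3 k ≤ 12`;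
in the induction `k' = t - 2`, `n < 4 t`, `3 t ≤ n`: `n = 12`, `k' = 4` would give `t = 6`, `18 ≤ 12`. -/
def CH_stmt : Prop := ∀ (a b k : ℕ) (C : Finset (ℕ × ℕ)), 2 ≤ k → 3 * k ≤ a + b → ¬ (a + b = 12 ∧ k = 4) →
  (∀ c ∈ C, 1 ≤ c.1 ∧ 1 ≤ c.2 ∧ c.1 + c.2 ≤ k) → IsCh C →
  ∑ c ∈ C, a.choose c.1 * b.choose c.2 ≤ MV (a + b) k

/-- **CE** (short-medium, finite). `a + b = 12`, `c.1 + c.2 ≤ 4`. A strict chain in this triangle has at most two elements, and two only if it is `{(1,1), (2,2)}`: `C(a,2) C(b,2) + a b ≤ 225 + 36`. One element (or none): `a C(b,c)`, `C(a,c) b`, `c ≤ 3`,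
or `C(a,2) C(b,2)`: at most 252 (`interval_cases a`, `decide`). -/
def CE_stmt : Prop := ∀ (a b : ℕ) (C : Finset (ℕ × ℕ)), a + b = 12 → (∀ c ∈ C, 1 ≤ c.1 ∧ 1 ≤ c.2 ∧ c.1 + c.2 ≤ 4) → IsCh C →
  ∑ c ∈ C, a.choose c.1 * b.choose c.2 ≤ 261

/-- The sizes of the unit-free sets of nonzero 0/1 vectors of weight at most `k` (as in helper72/UP/Spec and in `FIN_stmt` of helper55/NK/Spec). -/
def sizes (n k : ℕ) : Set ℕ :=
  {m : ℕ | ∃ S : Finset (Fin n → ℝ),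
    (∀ v ∈ S, (∀ i, v i = 0 ∨ v i = 1) ∧ v ≠ 0 ∧ (univ.filter (fun i => v i = 1)).card ≤ k) ∧
    (∀ i : Fin n, (Pi.single i 1 : Fin n → ℝ) ∉ Submodule.span ℝ (S : Set (Fin n → ℝ))) ∧
    S.card = m}

/-- **UB** (short, from PER of helper55/NK/Spec). Copy the second part (upper bound) of Pool/Agent/helper69/NK/FIN.lean, with `V` instead of `MV n k`. -/
def UB_stmt : Prop := ∀ n k V : ℕ,
  (∀ a b : ℕ, a + b = n → ∀ C : Finset (ℕ × ℕ), (∀ c ∈ C, 1 ≤ c.1 ∧ 1 ≤ c.2 ∧ c.1 + c.2 ≤ k) →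
    IsCh C → ∑ c ∈ C, a.choose c.1 * b.choose c.2 ≤ V) → ∀ m ∈ sizes n k, m ≤ V

/-- **LB** (short). The first part (attained) of Pool/Agent/helper69/NK/FIN.lean: `Base.uniform_result n k`. -/
def LB_stmt : Prop := ∀ n k : ℕ, 1 ≤ k → k ≤ n → (if k = 1 then 0 else ((n + 1) / k) * (n - (n + 1) / k).choose (k - 1)) ∈ sizes n k

/-- **FI** (short, from UB, LB, CH, CE). `k = 1`: all vectors have weight 1, so they are unit vectors and the set is empty (as in helper69/NK/FIN.lean), or UB with `V = 0`: `c.1 + c.2 ≤ 1` is impossible. `n = 12`, `k = 4`: UB with CE; `261 ∈ sizes 12 4` is the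
hypothesis. Otherwise UB with CH. -/
def FI_stmt : Prop := 261 ∈ sizes 12 4 → ∀ n k : ℕ, 1 ≤ k → 3 * k ≤ n →
  IsGreatest (sizes n k) (if n = 12 ∧ k = 4 then 261 else if k = 1 then 0 else ((n + 1) / k) * (n - (n + 1) / k).choose (k - 1))

end Pool.Agent.helper77.N3
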